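import Pool.Agent.Run7.h200.GR.Defs
import Pool.Agent.Run7.h200.Idl

/-!
# Properties of the elements of the rational group ring
-/

set_option autoImplicit false

namespace Run7.h200.GR

open Pool.Agent.X252.GA Pool.Agent.X310.Mu Run7.h200.HT Run7.h200.Col Run7.h200.Van
open Run7.h200.Idl (Kills nA_bot nA_up)
open Run7.h200.Pr (Criteria Sieve Mono)

variable {G : Type} [Group G]

/-- The property `L` is closed under sums, rational multiples, and translations from both sides. -/
structure TwoSided (L : (G → ℚ) → Prop) : Prop where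
  zero : L 0
  add : ∀ x y, L x → L y → L (x + y)
  smul : ∀ (q : ℚ) x, L x → L (q • x)
  left : ∀ h x, L x → L fun g => x (h⁻¹ * g)
  right : ∀ h x, L x → L fun g => x (g * h⁻¹)

variable {L : (G → ℚ) → Prop} (hL : TwoSided L)

include hL in
lemma left_mul (c x : MonoidAlgebra ℚ G) (hx : L x.coeff) : L (c * x).coeff := by
  induction c using MonoidAlgebra.induction_linear with
  | zero => rw [zero_mul]; exact hL.zero
  | add f g hf hg =>
    rw [add_mul]
    exact hL.add _ _ hf hg
  | single g r =>
    have h1 : ((MonoidAlgebra.single g r * x).coeff : G → ℚ) =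
        r • fun h => x.coeff (g⁻¹ * h) := by
      funext h
      rw [MonoidAlgebra.coeff_single_mul_apply]
      rfl
    rw [h1]
    exact hL.smul r _ (hL.left g _ hx)

include hL in
lemma right_mul (c x : MonoidAlgebra ℚ G) (hx : L x.coeff) : L (x * c).coeff := by
  induction c using MonoidAlgebra.induction_linear with
  | zero => rw [mul_zero]; exact hL.zero
  | add f g hf hg =>
    rw [mul_add]
    exact hL.add _ _ hf hg
  | single g r =>
    have h1 : ((x * MonoidAlgebra.single g r).coeff : G → ℚ) =
        r • fun h => x.coeff (h * g⁻¹) := by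
      funext h
      rw [MonoidAlgebra.coeff_mul_single_apply, mul_comm]
      rfl
    rw [h1]
    exact hL.smul r _ (hL.right g _ hx)

/-- the ideal of the elements with the property -/
def idl (hL : TwoSided L) : Ideal (MonoidAlgebra ℚ G) where
  carrier := {x | L x.coeff}
  zero_mem' := hL.zero
  add_mem' := fun hx hy => hL.add _ _ hx hy
  smul_mem' := fun c x hx => left_mul hL c x hx

lemma mem_idl (x : MonoidAlgebra ℚ G) : x ∈ idl hL ↔ L x.coeff := Iff.rfl

variable [Fintype G]

lemma ring_eq {S : Type} [AddCommGroup S] [Module ℚ S] (σ : G →* Module.End ℚ S)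
    (x : MonoidAlgebra ℚ G) (v : S) : ring σ x v = ∑ g, x.coeff g • σ g v := by
  classical
  induction x using MonoidAlgebra.induction_linear with
  | zero =>
    rw [map_zero, LinearMap.zero_apply]
    exact (Finset.sum_eq_zero fun g _ => by rw [MonoidAlgebra.coeff_zero, Finsupp.zero_apply,
      zero_smul]).symm
  | add f g hf hg =>
    rw [map_add, LinearMap.add_apply, hf, hg, ← Finset.sum_add_distrib]
    refine Finset.sum_congr rfl fun h _ => ?_
    rw [MonoidAlgebra.coeff_add, Finsupp.add_apply, add_smul]
  | single g r =>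
    rw [ring_single, LinearMap.smul_apply, Finset.sum_eq_single g]
    · rw [MonoidAlgebra.coeff_single, Finsupp.single_eq_same]
    · intro h _ hh
      rw [MonoidAlgebra.coeff_single, Finsupp.single_eq_of_ne hh, zero_smul]
    · intro h
      exact absurd (Finset.mem_univ g) h

lemma kills_iff {S : Type} [AddCommGroup S] [Module ℚ S] (σ : G →* Module.End ℚ S) :
    (∀ x ∈ idl hL, Kills σ x) ↔ Occ L σ := by
  constructor
  · intro h x hx v
    have h1 := h (MonoidAlgebra.ofCoeff (Finsupp.equivFunOnFinite.symm x)) (by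
      rw [mem_idl]
      exact hx)
    have h2 := ring_eq σ (MonoidAlgebra.ofCoeff (Finsupp.equivFunOnFinite.symm x)) v
    unfold Kills at h1
    rw [h1, LinearMap.zero_apply] at h2
    rw [finsum_eq_sum_of_fintype]
    exact h2.symm
  · intro h x hx
    unfold Kills
    refine LinearMap.ext fun v => ?_
    rw [ring_eq, LinearMap.zero_apply, ← finsum_eq_sum_of_fintype]
    exact h _ hx v

lemma sum_iff (H : Subgroup G) : SumIn L H ↔ nA H ∈ idl hL := by
  classical
  rw [mem_idl]
  unfold SumIn nA
  have h1 : (fun g : G => if g ∈ H then (1 : ℚ) else 0) =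
      ((∑ g : G with g ∈ H, MonoidAlgebra.single g (1 : ℚ) : MonoidAlgebra ℚ G).coeff : G → ℚ) := by
    funext g
    rw [MonoidAlgebra.coeff_sum, Finsupp.finset_sum_apply]
    simp only [MonoidAlgebra.coeff_single, Finsupp.single_apply, Finset.sum_ite_eq',
      Finset.mem_filter, Finset.mem_univ, true_and]
  have h2 : (fun g : G => @ite ℚ (g ∈ H) (Classical.propDecidable _) 1 0) =
      fun g : G => if g ∈ H then (1 : ℚ) else 0 := by
    funext g
    congr
  rw [h2, h1]

include hL in
lemma nA_le {H K : Subgroup G} (h : H ≤ K) (hH : nA H ∈ idl hL) : nA K ∈ idl hL := by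
  classical
  have hpos := ord_pos H
  have h1 : nA H * nA K = ord H • nA K := by
    have h1 : nA H * nA K = ∑ g : G with g ∈ H, MonoidAlgebra.single g (1 : ℚ) * nA K := by
      conv_lhs => unfold nA
      rw [← Finset.sum_mul]
      rfl
    rw [h1, Finset.sum_congr rfl fun g hg => single_mul_nA (H := K) (h (by simpa using hg)),
      Finset.sum_const, ← Nat.cast_smul_eq_nsmul ℚ]
    unfold ord
    congr!
  have h2 : nA H * nA K ∈ idl hL := right_mul hL (nA K) (nA H) hH
  rw [h1] at h2
  have h3 : nA K = (ord H)⁻¹ • (ord H • nA K) := by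
    rw [smul_smul, inv_mul_cancel₀ hpos.ne', one_smul]
  rw [h3]
  exact hL.smul _ _ h2

omit [Fintype G] in
include hL in
/-- **Group rings and properties.** -/
theorem main [Finite G] :
    (∀ (H : Subgroup G) (ι : Type) (E : ι → Subgroup G), Dom L H E →
      (∀ j, SumIn L (E j)) → SumIn L H) ∧
    Mono (SumIn L) ∧ Criteria (SumIn L) ∧ Sieve (SumIn L) ∧
    (¬ SumIn L ⊥ → (∀ D : Subgroup G, (Nat.card D).Prime → SumIn L D) →
      Fre L ∧ CyclicSubgroups G) := by
  have : Fintype G := Fintype.ofFinite G
  have h := Idl.main (idl hL) (fun x hx y => right_mul hL y x hx)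
  simp only [← sum_iff hL, kills_iff hL] at h
  obtain ⟨m1, m2, m3, m4, m5, m6, m7, m8⟩ := h
  have hmono : Mono (SumIn L) := by
    intro H K hHK hH
    rw [sum_iff hL] at hH ⊢
    exact nA_le hL hHK hH
  refine ⟨m1, hmono, ⟨m2, m3, m4, m5, m6, m7⟩, ?_, m8⟩
  intro K ι R hK hR
  constructor
  · intro h1 D _ _
    exact hmono _ _ bot_le h1
  · intro h1
    rw [m2 K hK]
    intro D hD
    by_cases h2 : ∀ j, ¬ R j ≤ D
    · exact h1 D hD h2
    · push Not at h2
      obtain ⟨j, hj⟩ := h2
      exact hmono _ _ hj (hR j)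

omit [Fintype G] in
include hL in
lemma all [Finite G] : AllCriteria L := by
  obtain ⟨m1, m2, m3, m4, m5⟩ := main hL
  exact ⟨m2, m4, m3, m1, m5⟩

end Run7.h200.GR
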