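import Pool.Agent.Run7.h200.GR.NCDefs
import Pool.Agent.Run7.h200.GR.Main

/-!
# Group actions and the sign conjecture for realisations
-/

set_option autoImplicit false

open CategoryTheory

namespace Run7.h200.GR

open Pool.Agent.Y112.SR Run7.h200.Van

universe v u w

variable {C : Type u} [Category.{v} C] [Preadditive C] [Linear ℚ C] {M : C} {G : Type} [Group G]
  {a : G →* End M}

lemma end_mul (g h : G) : (a (g * h) : M ⟶ M) = (a h : M ⟶ M) ≫ (a g : M ⟶ M) := by
  rw [map_mul]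
  rfl

section
variable [Fintype G]

lemma ringAct_eq (x : G → ℚ) : ringAct a x = ∑ g, x g • (a g : M ⟶ M) :=
  finsum_eq_sum_of_fintype _

lemma ringAct_zero : ringAct a (0 : G → ℚ) = 0 := by
  rw [ringAct_eq]
  exact Finset.sum_eq_zero fun g _ => by rw [Pi.zero_apply, zero_smul]

lemma ringAct_add (x y : G → ℚ) : ringAct a (x + y) = ringAct a x + ringAct a y := by
  rw [ringAct_eq, ringAct_eq, ringAct_eq, ← Finset.sum_add_distrib]
  exact Finset.sum_congr rfl fun g _ => by rw [Pi.add_apply, add_smul]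

lemma ringAct_smul (q : ℚ) (x : G → ℚ) : ringAct a (q • x) = ringAct a x ≫ (q • 𝟙 M) := by
  rw [ringAct_eq, ringAct_eq, Linear.comp_smul, Category.comp_id, Finset.smul_sum]
  exact Finset.sum_congr rfl fun g _ => by rw [Pi.smul_apply, smul_eq_mul, mul_smul]

lemma ringAct_left (h : G) (x : G → ℚ) : ringAct a (fun g => x (h⁻¹ * g)) =
    ringAct a x ≫ (a h : M ⟶ M) := by
  rw [ringAct_eq, ringAct_eq, Preadditive.sum_comp]
  refine Fintype.sum_equiv (Equiv.mulLeft h⁻¹) _ _ fun g => ?_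
  rw [Linear.smul_comp, Equiv.coe_mulLeft, ← end_mul, mul_inv_cancel_left]

lemma ringAct_right (h : G) (x : G → ℚ) : ringAct a (fun g => x (g * h⁻¹)) =
    (a h : M ⟶ M) ≫ ringAct a x := by
  rw [ringAct_eq, ringAct_eq, Preadditive.comp_sum]
  refine Fintype.sum_equiv (Equiv.mulRight h⁻¹) _ _ fun g => ?_
  rw [Linear.comp_smul, Equiv.coe_mulRight, ← end_mul, inv_mul_cancel_right]

lemma ringAct_sub (H : Subgroup G) [DecidablePred (· ∈ H)] :
    ringAct a (fun g => if g ∈ H then 1 else 0) = ∑ᶠ h : H, (a h.1 : M ⟶ M) := by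
  rw [ringAct_eq, finsum_eq_sum_of_fintype]
  rw [Finset.sum_congr rfl fun g _ => show (if g ∈ H then (1 : ℚ) else 0) • (a g : M ⟶ M) =
    if g ∈ H then (a g : M ⟶ M) else 0 by
      split_ifs
      · rw [one_smul]
      · rw [zero_smul], ← Finset.sum_filter]
  exact Finset.sum_subtype (Finset.univ.filter fun g : G => g ∈ H) (by simp)
    (fun g => (a g : M ⟶ M))

end

variable [MonoidalCategory C] [SymmetricCategory C] {K : Type w} [Field K]
  {R : SuperRealisation C K}

lemma par_comm {N : C} (f : M ⟶ N) :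
    R.H.map f ≫ (𝟙 _ + R.par N) = (𝟙 _ + R.par M) ≫ R.H.map f := by
  rw [Preadditive.comp_add, Preadditive.add_comp, R.par_natural, Category.comp_id,
    Category.id_comp]

lemma evenTwoSided [Finite G] : TwoSided (EvenPart R a) := by
  have : Fintype G := Fintype.ofFinite G
  refine ⟨?_, ?_, ?_, ?_, ?_⟩
  · exact ⟨0, by rw [ringAct_zero, R.H.map_zero, smul_zero, Limits.comp_zero]⟩
  · rintro x y ⟨f, hf⟩ ⟨f', hf'⟩
    exact ⟨f + f', by rw [ringAct_add, R.H.map_add, R.H.map_add, smul_add, hf, hf',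
      Preadditive.comp_add]⟩
  · rintro q x ⟨f, hf⟩
    exact ⟨f ≫ (q • 𝟙 M), by rw [ringAct_smul, R.H.map_comp, R.H.map_comp, ← Linear.smul_comp, hf,
      Category.assoc]⟩
  · rintro h x ⟨f, hf⟩
    exact ⟨f ≫ (a h : M ⟶ M), by rw [ringAct_left, R.H.map_comp, R.H.map_comp, ← Linear.smul_comp,
      hf, Category.assoc]⟩
  · rintro h x ⟨f, hf⟩
    exact ⟨(a h : M ⟶ M) ≫ f, by rw [ringAct_right, R.H.map_comp, R.H.map_comp,
      ← Linear.comp_smul, hf, ← Category.assoc, par_comm, Category.assoc]⟩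

/-- The assertion for the trivial group. -/
lemma even_bot [Finite G] : SumIn (EvenPart R a) ⊥ ↔ R.CPlus M := by
  classical
  have : Fintype G := Fintype.ofFinite G
  have key : ringAct a (fun g => @ite ℚ (g ∈ (⊥ : Subgroup G)) (Classical.propDecidable _) 1 0) =
      𝟙 M := by
    have h1 := ringAct_sub (a := a) (⊥ : Subgroup G)
    have h2 : ∑ᶠ h : (⊥ : Subgroup G), (a h.1 : M ⟶ M) = 𝟙 M := by
      rw [finsum_eq_sum_of_fintype, Fintype.sum_unique]
      change (a 1 : M ⟶ M) = 𝟙 M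
      rw [map_one]
      rfl
    rw [h2] at h1
    rw [← h1]
  unfold SumIn EvenPart SuperRealisation.CPlus
  rw [key, R.H.map_id, Category.comp_id]

/-- The assertion for a group is the sign conjecture for the direct summand of the invariants. -/
lemma even_inv [Finite G] {H : Subgroup G} {N : C} (hN : IsInvariants a H N) :
    SumIn (EvenPart R a) H ↔ R.CPlus N := by
  classical
  have : Fintype G := Fintype.ofFinite G
  obtain ⟨i, r, hir, hs⟩ := hN
  have hcard : (Nat.card H : ℚ) ≠ 0 := Nat.cast_ne_zero.mpr Nat.card_pos.ne'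
  have key : ringAct a (fun g => @ite ℚ (g ∈ H) (Classical.propDecidable _) 1 0) =
      (Nat.card H : ℚ) • (r ≫ i) := by
    rw [hs, ← ringAct_sub (a := a) H]
  unfold SumIn EvenPart SuperRealisation.CPlus
  rw [key]
  constructor
  · rintro ⟨f, hf⟩
    refine ⟨i ≫ f ≫ (((Nat.card H : ℚ)⁻¹ • r)), ?_⟩
    have e1 : i ≫ ((Nat.card H : ℚ) • (r ≫ i)) ≫ ((Nat.card H : ℚ)⁻¹ • r) = 𝟙 N := by
      rw [Linear.smul_comp, Linear.comp_smul, Linear.comp_smul, Linear.comp_smul, smul_smul,
        mul_inv_cancel₀ hcard, one_smul, Category.assoc, hir, Category.comp_id, hir]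
    calc (2 : K) • R.H.map (i ≫ f ≫ ((Nat.card H : ℚ)⁻¹ • r))
        = R.H.map i ≫ ((2 : K) • R.H.map f) ≫ R.H.map ((Nat.card H : ℚ)⁻¹ • r) := by
          rw [R.H.map_comp, R.H.map_comp, Linear.smul_comp, Linear.comp_smul]
      _ = (𝟙 _ + R.par N) ≫ R.H.map (i ≫ ((Nat.card H : ℚ) • (r ≫ i)) ≫
            ((Nat.card H : ℚ)⁻¹ • r)) := by
          rw [hf, R.H.map_comp, R.H.map_comp]
          rw [← Category.assoc, ← Category.assoc, par_comm]
          simp only [Category.assoc]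
      _ = 𝟙 _ + R.par N := by rw [e1, R.H.map_id, Category.comp_id]
  · rintro ⟨f, hf⟩
    refine ⟨r ≫ f ≫ ((Nat.card H : ℚ) • i), ?_⟩
    calc (2 : K) • R.H.map (r ≫ f ≫ ((Nat.card H : ℚ) • i))
        = R.H.map r ≫ ((2 : K) • R.H.map f) ≫ R.H.map ((Nat.card H : ℚ) • i) := by
          rw [R.H.map_comp, R.H.map_comp, Linear.smul_comp, Linear.comp_smul]
      _ = (𝟙 _ + R.par M) ≫ R.H.map (r ≫ ((Nat.card H : ℚ) • i)) := by
          rw [hf, R.H.map_comp, ← Category.assoc, par_comm, Category.assoc]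
      _ = _ := by rw [Linear.comp_smul]

end Run7.h200.GR
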