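import Pool.Agent.Run7.h200.PDefs

/-!
# Properties of the elements of the rational group ring: definitions
-/

set_option autoImplicit false

namespace Run7.h200.GR

open Run7.h200.Van

variable {G : Type} [Group G] (L : (G → ℚ) → Prop)

open Classical in
/-- The sum of the elements of `H` has the property `L`. (`L` is a property of the elements
`∑ x_g g` of the rational group ring of `G`.) -/
def SumIn (H : Subgroup G) : Prop := L fun g => if g ∈ H then 1 else 0

/-- The elements of the group ring with the property `L` act as zero on the representation `σ`. -/
def Occ {S : Type} [AddCommGroup S] [Module ℚ S] (σ : G →* Module.End ℚ S) : Prop :=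
  ∀ x : G → ℚ, L x → ∀ v : S, ∑ᶠ g, x g • σ g v = 0

/-- Every irreducible rational representation of `G` on which the elements with the property `L` act
as zero, and which has a nonzero vector fixed by `H`, has for some `j` a nonzero vector fixed by
`E j`. -/
def Dom {ι : Type} (H : Subgroup G) (E : ι → Subgroup G) : Prop :=
  ∀ (S : Type) [AddCommGroup S] [Module ℚ S] (σ : G →* Module.End ℚ S), Irr σ →
    Occ L σ → (∃ v : S, v ≠ 0 ∧ ∀ h ∈ H, σ h v = v) →
      ∃ j, ∃ v : S, v ≠ 0 ∧ ∀ d ∈ E j, σ d v = v

/-- On some nonzero irreducible rational representation of `G` the elements with the property `L`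
act as zero, and the elements of `G` different from one fix only `0` in it. -/
def Fre : Prop :=
  ∃ (S : Type) (_ : AddCommGroup S) (_ : Module ℚ S) (σ : G →* Module.End ℚ S), Irr σ ∧
    Occ L σ ∧ (∃ v : S, v ≠ 0) ∧ ∀ g : G, g ≠ 1 → ∀ v : S, σ g v = v → v = 0

/-- The assertion `SumIn L H` for the subgroups `H`: it is inherited by bigger groups; the sieve; the
criteria; the assertion for `H` follows from the assertions for a family which dominates `H`; if the
assertion is false for the trivial group and true for the groups of prime order, then `G` acts freely
on an irreducible representation on which the elements with the property `L` act as zero, the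
commutative subgroups and the subgroups of order `p q` are cyclic, and there is at most one
involution. -/
def AllCriteria : Prop :=
  Pr.Mono (SumIn L) ∧ Pr.Sieve (SumIn L) ∧ Pr.Criteria (SumIn L) ∧
  (∀ (H : Subgroup G) (ι : Type) (E : ι → Subgroup G), Dom L H E →
    (∀ j, SumIn L (E j)) → SumIn L H) ∧
  (¬ SumIn L ⊥ → (∀ D : Subgroup G, (Nat.card D).Prime → SumIn L D) →
    Fre L ∧ CyclicSubgroups G)

end Run7.h200.GR
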