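import Pool.Agent.H447R3.SpDefs
import Pool.Agent.Run7.h200.GR.Defs

/-!
# Group actions and Künneth projectors: definitions
-/

set_option autoImplicit false

open CategoryTheory AlgebraicGeometry

universe u v

namespace Run7.h200.GR

open Pool.Agent.H914 Pool.Agent.H914.VarClass Pool.Agent.H914.VarClass.Obj
  Pool.Agent.H914.WeilCohomology

section Alg

variable {K V V' G : Type*} [Field K] [AddCommGroup V] [Module K V] [Group G]

open Classical in
/-- The operator `φ` acts as `∑ x_g τ_g` on the `gr j`, `j ∈ D`, and as zero on the `gr j`,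
`j ∉ D`. -/
def CutsTo (gr : ℕ → Submodule K V) (D : Set ℕ) (τ : G → V → V) (x : G → ℚ) (φ : V → V) : Prop :=
  ∀ j, ∀ y ∈ gr j, φ y = if j ∈ D then ∑ᶠ g, (x g : K) • τ g y else 0

/-- The operator `φ` acts as the identity on the `gr j`, `j ∈ D`, and as zero on the `gr j`,
`j ∉ D`. -/
def IsCut (gr : ℕ → Submodule K V) (D : Set ℕ) (φ : V → V) : Prop :=
  ∀ j, ∀ y ∈ gr j, (j ∈ D → φ y = y) ∧ (j ∉ D → φ y = 0)

/-- The composition of `q` and `p` is the sum of the operators `τ_h`, `h ∈ H`. -/
def FoldsTo (τ : G → V → V) (H : Subgroup G) (p : V' → V) (q : V → V') : Prop :=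
  ∀ y, p (q y) = ∑ᶠ h : H, τ h.1 y

end Alg

variable {k : Type u} [Field k] {𝒱 : VarClass k} {ops : CycleOps 𝒱}

/-- The action of `G` on the cohomology of `X`: `g` acts as the pull-back under `g⁻¹`. -/
noncomputable def actW (W : WeilCohomology.{u, v} ops) {X : 𝒱.Obj} {G : Type} [Group G]
    (a : G →* Aut X) (g : G) (y : W.H X) : W.H X := W.map (a g).inv y

/-- The operator on `H(X)` induced by the cycle `P` on `X × X`. -/
noncomputable def opOf (W : WeilCohomology.{u, v} ops) {X : 𝒱.Obj} (P : (X.prod X).Cycles)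
    (y : W.H X) : W.H X := W.corr (W.cl (X.prod X) P) y

/-- An algebraic cycle on `X × X` (with rational coefficients) induces the operator `∑ x_g g` on the
groups `H^j(X)`, `j ∈ D`, and zero on the groups `H^j(X)`, `j ∉ D`. -/
def CutCyc (W : WeilCohomology.{u, v} ops) {X : 𝒱.Obj} (D : Set ℕ) {G : Type} [Group G]
    (a : G →* Aut X) (x : G → ℚ) : Prop :=
  ∃ P, (X.prod X).IsCyc X.dim P ∧ CutsTo (W.gr X) D (actW W a) x (opOf W P)

/-- The projector of the cohomology of `X` onto the sum of the `H^j(X)`, `j ∈ D`, is induced by an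
algebraic cycle. -/
def CutStd (W : WeilCohomology.{u, v} ops) (X : 𝒱.Obj) (D : Set ℕ) : Prop :=
  ∃ P, (X.prod X).IsCyc X.dim P ∧ IsCut (W.gr X) D (opOf W P)

/-- The morphism `f : X ⟶ Y` of varieties of the same dimension has the property of a quotient map
for the group `H`: the composition of push-forward and pull-back is the sum over `H`. -/
def IsQuot (W : WeilCohomology.{u, v} ops) {X Y : 𝒱.Obj} {G : Type} [Group G] (a : G →* Aut X)
    (H : Subgroup G) (f : X ⟶ Y) : Prop :=
  X.dim = Y.dim ∧ FoldsTo (actW W a) H (W.map f) (W.push f)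

end Run7.h200.GR
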