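import Pool.Agent.H447R3.WtB
import Pool.Agent.H914R2.GFrob
import Pool.Agent.Run7.h200.GR.SignDefs
import Pool.Agent.Run7.h200.GR.Main

/-!
# Group actions and Künneth projectors
-/

set_option autoImplicit false

open CategoryTheory AlgebraicGeometry

universe u v

namespace Run7.h200.GR

open Pool.Agent.H914 Pool.Agent.H914.VarClass Pool.Agent.H914.VarClass.Obj
  Pool.Agent.H914.WeilCohomology Pool.Agent.H447 Run7.h200.Van
open Run7.h200.Pr (Criteria Sieve Mono)

variable {k : Type u} [Field k] {𝒱 : VarClass k} {ops : CycleOps 𝒱}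
  {W : WeilCohomology.{u, v} ops} {X : 𝒱.Obj} {D : Set ℕ} {G : Type} [Group G]
  {a : G →* Aut X}

open Classical in
/-- the projector -/
noncomputable def cut (W : WeilCohomology.{u, v} ops) (X : 𝒱.Obj) (D : Set ℕ) :
    Module.End W.K (W.H X) :=
  scal (W.isInternal X) fun j => if j ∈ D then 1 else 0

/-- the operator of an element of the group ring -/
noncomputable def comb (W : WeilCohomology.{u, v} ops) [Fintype G] (a : G →* Aut X) (x : G → ℚ) :
    Module.End W.K (W.H X) :=
  ∑ g, (x g : W.K) • (W.map (a g).inv).toLinearMap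

variable [Fintype G]

lemma comb_apply (x : G → ℚ) (y : W.H X) :
    comb W a x y = ∑ᶠ g, (x g : W.K) • actW W a g y := by
  rw [finsum_eq_sum_of_fintype]
  unfold comb
  rw [LinearMap.sum_apply]
  rfl

lemma comb_mem (x : G → ℚ) {j : ℕ} {y : W.H X} (hy : y ∈ W.gr X j) :
    comb W a x y ∈ W.gr X j := by
  unfold comb
  rw [LinearMap.sum_apply]
  refine Submodule.sum_mem _ fun g _ => ?_
  exact Submodule.smul_mem _ _ (W.map_mem (a g).inv hy)

lemma cut_comb (x : G → ℚ) {j : ℕ} {y : W.H X} (hy : y ∈ W.gr X j) [Decidable (j ∈ D)] :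
    (cut W X D * comb W a x) y = if j ∈ D then ∑ᶠ g, (x g : W.K) • actW W a g y else 0 := by
  rw [Module.End.mul_apply, cut, scal_apply _ _ (comb_mem x hy), ← comb_apply]
  split_ifs with h1
  · rw [one_smul]
  · rw [zero_smul]

lemma cyc_iff (x : G → ℚ) : CutCyc W D a x ↔ ROp W X 0 (cut W X D * comb W a x) := by
  classical
  constructor
  · rintro ⟨P, hP, h⟩
    have h1 : W.corr (W.cl (X.prod X) P) = cut W X D * comb W a x := by
      apply gr_ext (W.isInternal X)
      intro j y hy
      have h2 := h j y hy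
      unfold opOf at h2
      rw [h2, cut_comb x hy]
    rw [← h1]
    exact rop_corr (by simp) hP
  · intro h
    obtain ⟨P, hP, h1⟩ := exists_of_rop (p := X.dim) (by simp) h
    refine ⟨P, hP, fun j y hy => ?_⟩
    unfold opOf
    rw [h1, cut_comb x hy]

lemma cut_comm {φ : Module.End W.K (W.H X)} (hφ : ∀ j, ∀ y ∈ W.gr X j, φ y ∈ W.gr X j) :
    cut W X D * φ = φ * cut W X D := by
  apply gr_ext (W.isInternal X)
  intro j y hy
  rw [Module.End.mul_apply, Module.End.mul_apply, cut, scal_apply _ _ (hφ j y hy),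
    scal_apply _ _ hy, map_smul]

lemma map_mul_inv (g h : G) (y : W.H X) :
    W.map (a (g * h)).inv y = W.map (a g).inv (W.map (a h).inv y) := by
  rw [map_mul, ← W.map_comp]
  rfl

lemma comb_left (h : G) (x : G → ℚ) : comb W a (fun g => x (h⁻¹ * g)) =
    (W.map (a h).inv).toLinearMap * comb W a x := by
  refine LinearMap.ext fun y => ?_
  rw [Module.End.mul_apply]
  unfold comb
  rw [LinearMap.sum_apply, LinearMap.sum_apply, map_sum]
  refine Fintype.sum_equiv (Equiv.mulLeft h⁻¹) _ _ fun g => ?_
  rw [LinearMap.smul_apply, LinearMap.smul_apply, map_smul, Equiv.coe_mulLeft]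
  congr 1
  change W.map (a g).inv y = W.map (a h).inv (W.map (a (h⁻¹ * g)).inv y)
  rw [← map_mul_inv, mul_inv_cancel_left]

lemma comb_right (h : G) (x : G → ℚ) : comb W a (fun g => x (g * h⁻¹)) =
    comb W a x * (W.map (a h).inv).toLinearMap := by
  refine LinearMap.ext fun y => ?_
  rw [Module.End.mul_apply]
  unfold comb
  rw [LinearMap.sum_apply, LinearMap.sum_apply]
  refine Fintype.sum_equiv (Equiv.mulRight h⁻¹) _ _ fun g => ?_
  rw [LinearMap.smul_apply, LinearMap.smul_apply, Equiv.coe_mulRight]
  congr 1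
  change W.map (a g).inv y = W.map (a (g * h⁻¹)).inv (W.map (a h).inv y)
  rw [← map_mul_inv, inv_mul_cancel_right]

omit [Fintype G] in
lemma twoSided [Finite G] (W : WeilCohomology.{u, v} ops) (D : Set ℕ) (a : G →* Aut X) :
    TwoSided (CutCyc W D a) := by
  have : Fintype G := Fintype.ofFinite G
  have hR := rop_opAlg (W := W) (X := X)
  refine ⟨?_, ?_, ?_, ?_, ?_⟩
  · rw [cyc_iff]
    have h1 : comb W a (0 : G → ℚ) = 0 := by
      unfold comb
      exact Finset.sum_eq_zero fun g _ => by rw [Pi.zero_apply, Rat.cast_zero, zero_smul]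
    rw [h1, mul_zero]
    exact hR.zero 0
  · intro x y hx hy
    rw [cyc_iff] at hx hy ⊢
    have h1 : comb W a (x + y) = comb W a x + comb W a y := by
      unfold comb
      rw [← Finset.sum_add_distrib]
      exact Finset.sum_congr rfl fun g _ => by rw [Pi.add_apply, Rat.cast_add, add_smul]
    rw [h1, mul_add]
    exact hR.add hx hy
  · intro q x hx
    rw [cyc_iff] at hx ⊢
    have h1 : comb W a (q • x) = (q : W.K) • comb W a x := by
      unfold comb
      rw [Finset.smul_sum]
      exact Finset.sum_congr rfl fun g _ => by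
        rw [Pi.smul_apply, smul_eq_mul, Rat.cast_mul, mul_smul]
    rw [h1, mul_smul_comm]
    exact hR.smul q hx
  · intro h x hx
    rw [cyc_iff] at hx ⊢
    rw [comb_left, ← mul_assoc, cut_comm (fun j y hy => W.map_mem (a h).inv hy), mul_assoc]
    exact hR.cast (hR.mul (rop_map (a h).inv) hx) (by ring)
  · intro h x hx
    rw [cyc_iff] at hx ⊢
    rw [comb_right, ← mul_assoc]
    exact hR.cast (hR.mul hx (rop_map (a h).inv)) (by ring)

omit [Fintype G] in
lemma sum_bot [Finite G] (a : G →* Aut X) : SumIn (CutCyc W D a) ⊥ ↔ CutStd W X D := by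
  classical
  have : Fintype G := Fintype.ofFinite G
  have key : ∀ y : W.H X, ∑ᶠ g, (((if g ∈ (⊥ : Subgroup G) then (1 : ℚ) else 0 : ℚ)) : W.K) •
      actW W a g y = y := by
    intro y
    rw [finsum_eq_sum_of_fintype, Finset.sum_eq_single (1 : G)]
    · rw [if_pos (Subgroup.mem_bot.mpr rfl), Rat.cast_one, one_smul]
      change W.map (a 1).inv y = y
      rw [map_one]
      exact W.map_id X y
    · intro g _ hg
      rw [if_neg (fun h => hg (Subgroup.mem_bot.mp h)), Rat.cast_zero, zero_smul]
    · intro h
      exact absurd (Finset.mem_univ _) h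
  unfold SumIn CutCyc CutStd CutsTo IsCut opOf
  refine exists_congr fun P => and_congr Iff.rfl (forall_congr' fun j => forall_congr' fun y =>
    forall_congr' fun hy => ?_)
  have key' := key y
  constructor
  · intro h1
    constructor
    · intro hj
      rw [h1, if_pos hj]
      convert key' using 1
    · intro hj
      rw [h1, if_neg hj]
  · rintro ⟨h1, h2⟩
    by_cases hj : j ∈ D
    · rw [if_pos hj, h1 hj]
      symm
      convert key' using 1
    · rw [if_neg hj, h2 hj]

/-- The sign conjecture is the case of the even numbers. -/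
lemma sign_iff (W : WeilCohomology.{u, v} ops) (X : 𝒱.Obj) :
    CutStd W X {j | Even j} ↔ SignStd W X := by
  unfold CutStd SignStd IsEvenProj IsCut opOf
  refine exists_congr fun P => and_congr Iff.rfl (forall_congr' fun j => forall_congr' fun y =>
    forall_congr' fun hy => ?_)
  constructor
  · rintro ⟨h1, h2⟩
    split_ifs with hj
    · exact h1 hj
    · exact h2 hj
  · intro h
    constructor
    · intro hj
      rw [h, if_pos (show Even j from hj)]
    · intro hj
      rw [h, if_neg (show ¬ Even j from hj)]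

end Run7.h200.GR
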