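import Pool.Agent.Run7.h853.Gh.Cn
import Pool.Agent.Run7.h200.GR.Sign

/-!
# Quotient maps
-/

set_option autoImplicit false

open CategoryTheory AlgebraicGeometry

universe u v

namespace Run7.h200.GR

open Pool.Agent.H914 Pool.Agent.H914.VarClass Pool.Agent.H914.VarClass.Obj
  Pool.Agent.H914.WeilCohomology Pool.Agent.H447 Run7.h200.Van

variable {k : Type u} [Field k] {𝒱 : VarClass k} {ops : CycleOps 𝒱}
  {W : WeilCohomology.{u, v} ops} {X Y Z : 𝒱.Obj}

lemma push_fst_base (f : X ⟶ Y) (y : W.H X) :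
    W.push (Obj.lift (fst X Z ≫ f) (snd X Z)) (W.map (fst X Z) y) =
      W.map (fst Y Z) (W.push f y) := by
  apply W.tr_ext
  intro c
  rw [W.tr_push]
  refine W.kunneth_induction (p := fun c => W.tr (X.prod Z) (W.map (fst X Z) y *
    W.map (Obj.lift (fst X Z ≫ f) (snd X Z)) c) = W.tr (Y.prod Z)
      (W.map (fst Y Z) (W.push f y) * c)) ?_ ?_ c
  · intro a b ha hb
    rw [map_add, mul_add, mul_add, map_add, map_add, ha, hb]
  · intro i j u _ w _
    rw [map_mul (W.map _), ← W.map_comp, ← W.map_comp, Obj.lift_fst, Obj.lift_snd, W.map_comp,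
      ← mul_assoc, ← mul_assoc, ← map_mul, ← map_mul, W.tr_prod, W.tr_prod, W.tr_push]

lemma push_base (f : X ⟶ Y) {p : ℕ} {d : W.H (Y.prod Z)} (hd : d ∈ W.gr (Y.prod Z) (2 * p))
    (y : W.H X) :
    W.push (snd X Z) (W.map (Obj.lift (fst X Z ≫ f) (snd X Z)) d * W.map (fst X Z) y) =
      W.push (snd Y Z) (d * W.map (fst Y Z) (W.push f y)) := by
  have e1 : Obj.lift (fst X Z ≫ f) (snd X Z) ≫ snd Y Z = snd X Z := Obj.lift_snd _ _
  have h1 : W.push (snd X Z) (W.map (Obj.lift (fst X Z ≫ f) (snd X Z)) d * W.map (fst X Z) y) =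
      W.push (Obj.lift (fst X Z ≫ f) (snd X Z) ≫ snd Y Z)
        (W.map (Obj.lift (fst X Z ≫ f) (snd X Z)) d * W.map (fst X Z) y) := by rw [e1]
  rw [h1, W.push_comp, ← W.mul_push _ hd, push_fst_base]

lemma corr_quot (f : X ⟶ Y) {p : ℕ} {c : W.H (Y.prod Y)} (hc : c ∈ W.gr (Y.prod Y) (2 * p))
    (y : W.H X) :
    W.corr (W.map (Obj.lift (fst X X ≫ f) (snd X X))
      (W.map (Obj.lift (fst Y X) (snd Y X ≫ f)) c)) y = W.map f (W.corr c (W.push f y)) := by
  have e2 : Obj.lift (fst Y X) (snd Y X ≫ f) ≫ fst Y Y = fst Y X := Obj.lift_fst _ _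
  rw [corr_apply, corr_apply, push_base f (W.map_mem _ hc), ← Run7.h853.Gh.base_change,
    map_mul (W.map _), ← W.map_comp _ (fst Y Y), e2]

/-- The assertion for a group follows from the one for the quotient. -/
lemma sum_quot {G : Type} [Group G] [Finite G] {a : G →* Aut X} {H : Subgroup G} {f : X ⟶ Y}
    {D : Set ℕ} (hf : IsQuot W a H f) (hY : CutStd W Y D) : SumIn (CutCyc W D a) H := by
  classical
  have : Fintype G := Fintype.ofFinite G
  obtain ⟨hdim, hf⟩ := hf
  obtain ⟨P, hP, h⟩ := hY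
  refine ⟨ops.pull (Obj.lift (fst X X ≫ f) (snd X X)) (ops.pull (Obj.lift (fst Y X)
    (snd Y X ≫ f)) P), ?_, fun j y hy => ?_⟩
  · rw [hdim]
    exact ops.pull_mem _ (ops.pull_mem _ hP)
  · unfold opOf
    rw [W.cl_pull, W.cl_pull, corr_quot f (W.cl_mem hP)]
    have hy' : W.push f y ∈ W.gr Y j := by
      have h1 := W.push_mem f hy
      rw [hdim, sub_self, mul_zero, add_zero, grZ_natCast] at h1
      exact h1
    by_cases hj : j ∈ D
    · have h5 := (h j _ hy').1 hj
      unfold opOf at h5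
      rw [h5, if_pos hj, hf]
      rw [finsum_eq_sum_of_fintype, finsum_eq_sum_of_fintype]
      have h2 : ∀ g : G, (((if g ∈ H then (1 : ℚ) else 0 : ℚ)) : W.K) • actW W a g y =
          if g ∈ H then actW W a g y else 0 := by
        intro g
        split_ifs
        · rw [Rat.cast_one, one_smul]
        · rw [Rat.cast_zero, zero_smul]
      have h3 : ∑ g : G, (((if g ∈ H then (1 : ℚ) else 0 : ℚ)) : W.K) • actW W a g y =
          ∑ h : H, actW W a h.1 y := by
        rw [Finset.sum_congr rfl fun g _ => h2 g, ← Finset.sum_filter]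
        exact Finset.sum_subtype (Finset.univ.filter fun g : G => g ∈ H) (by simp)
          (fun g => actW W a g y)
      convert h3.symm using 1
    · have h5 := (h j _ hy').2 hj
      unfold opOf at h5
      rw [h5, if_neg hj, map_zero]

end Run7.h200.GR
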