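import Pool.Agent.Y112.SR.Defs
import Pool.Agent.Run7.h200.GR.Defs

/-!
# Group actions and the sign conjecture for realisations: definitions
-/

set_option autoImplicit false

open CategoryTheory

namespace Run7.h200.GR

open Pool.Agent.Y112.SR

universe v u w

variable {C : Type u} [Category.{v} C] [Preadditive C]

section

variable [Linear ℚ C] {M : C} {G : Type} [Group G]

/-- The action of the element `∑ x_g g` of the rational group ring on the object `M`. -/
noncomputable def ringAct (a : G →* End M) (x : G → ℚ) : M ⟶ M := ∑ᶠ g, x g • (a g : M ⟶ M)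

/-- `N` is the direct summand of the invariants of `H`: it is the direct summand of `M` cut out by the
idempotent `(1 / |H|) ∑ h`. -/
def IsInvariants (a : G →* End M) (H : Subgroup G) (N : C) : Prop :=
  ∃ (i : N ⟶ M) (r : M ⟶ N), i ≫ r = 𝟙 N ∧
    (Nat.card H : ℚ) • (r ≫ i) = ∑ᶠ h : H, (a h.1 : M ⟶ M)

end

variable [MonoidalCategory C] [SymmetricCategory C] {K : Type w} [Field K]

/-- Some endomorphism of `M` realises the composition of the projector onto the even part of the
realisation and of the element `∑ x_g g` of the rational group ring. -/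
def EvenPart [Linear ℚ C] (R : SuperRealisation C K) {M : C} {G : Type} [Group G] (a : G →* End M)
    (x : G → ℚ) : Prop :=
  ∃ f : M ⟶ M, (2 : K) • R.H.map f = (𝟙 _ + R.par M) ≫ R.H.map (ringAct a x)

end Run7.h200.GR
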